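import Pool.Agent.GJ.N.Pla
import Pool.Agent.MD.F.Cho

/-!
# GJ/N-Glue: characters with prescribed values at finitely many places (paper B1)

`H = stb ψ` (`exists_nf`); `x k` with `Kum ψ (x k) s (χ k)` (`of_chr`), `w k` the place of `P k` (`exists_pl`), pairwise
different (`peq_iff`), away from `T`.  `approx_many` (MD/I/Apx) gives a totally positive `a`, a local square at the places
over `T`, with `LSq (w k) (a / x k)`; `ω` is the character of `a`.
-/

namespace Pool.Agent.GJ

open MulAction Pool.Agent.H73.DU Pool.Agent.H73.AL Pool.Agent.LD Pool.Agent.TS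

open NumberField IsDedekindDomain Pool.Agent.HWR Pool.Agent.QD Pool.Agent.QD.In Pool.Agent.MD

private theorem Glue_unit {u : ℤˣ} {s : AlgebraicClosure ℚ} (hs : s ≠ 0)
    (h : s = ((u : ℤ) : AlgebraicClosure ℚ) * s) : u = 1 := by
  rcases Int.units_eq_one_or u with h1 | h1
  · exact h1
  · exfalso
    rw [h1] at h
    have h2 : (2 : AlgebraicClosure ℚ) * s = 0 := by
      have h3 : s = - s := by
        refine h.trans ?_
        push_cast
        ring
      linear_combination h3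
    rcases mul_eq_zero.1 h2 with h3 | h3
    · exact two_ne_zero h3
    · exact hs h3

/-- the character of a totally positive element is trivial at the complex conjugations -/
private theorem Glue_real {F : Type} [Field F] [NumberField F] {ψ : F →+* AlgebraicClosure ℚ}
    {a : Fˣ} {s : AlgebraicClosure ℚ} {ω : GQ → ℤˣ} (h : Kum ψ a s ω)
    (ha : ∀ φ : F →+* ℝ, 0 < φ (a : F)) {c : GQ} (hc : IsCc c) (hcH : c ∈ stb ψ) : ω c = 1 := by
  obtain ⟨ι, hι⟩ := hc
  have hfix : ∀ x : F, c (ψ x) = ψ x := fun x =>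
    RingHom.congr_fun (MulAction.mem_stabilizer_iff.1 hcH) x
  have hre : ComplexEmbedding.IsReal (ι.comp ψ) := by
    rw [ComplexEmbedding.isReal_iff]
    ext x
    change starRingEnd ℂ (ι (ψ x)) = ι (ψ x)
    rw [← hι, hfix]
  have h1 : (ι s) ^ 2 = ((hre.embedding (a : F) : ℝ) : ℂ) := by
    rw [ComplexEmbedding.IsReal.coe_embedding_apply, ← map_pow, h.1]
    rfl
  have h2 : 0 < hre.embedding (a : F) := ha _
  have h3 : (ι s) ^ 2 = ((√(hre.embedding (a : F)) : ℝ) : ℂ) ^ 2 := by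
    rw [h1, ← Complex.ofReal_pow, Real.sq_sqrt h2.le]
  have h4 : starRingEnd ℂ (ι s) = ι s := by
    rcases sq_eq_sq_iff_eq_or_eq_neg.1 h3 with h5 | h5
    · rw [h5, Complex.conj_ofReal]
    · rw [h5, map_neg, Complex.conj_ofReal]
  have h5 : c s = s := by
    apply ι.injective
    rw [hι, h4]
  have h6 := h.2 c hcH
  rw [h5] at h6
  exact Glue_unit h.ne h6

theorem glue {V T : Finset ℕ} (hTp : ∀ p ∈ T, p.Prime) (h2 : 2 ∈ T) {H : Subgroup GQ}
    (hH : IsOpen (H : Set GQ)) {ι : Type} [Finite ι] (P : ι → Pl) (hP : ∀ k, Pin V T (P k))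
    (hne : ∀ k l, k ≠ l → ¬ PEq H (P k) (P l)) (χ : ι → GQ → ℤˣ) (hχ : ∀ k, IsChr H (χ k)) :
    ∃ ω : GQ → ℤˣ, IsChr H ω ∧ TTr T H ω ∧ (∀ c : GQ, IsCc c → c ∈ H → ω c = 1) ∧
      ∀ k, EqAt H (P k) ω (χ k) := by
  classical
  have := Fintype.ofFinite ι
  obtain ⟨F, ψ, rfl, -, -⟩ := exists_nf H hH
  choose x s hx using fun k => of_chr ψ (hχ k)
  choose w hw hwp using fun k => exists_pl ψ (P k)
  have hinj : Function.Injective w := by
    intro k l hkl
    by_contra hk
    exact hne k l hk ((peq_iff ψ (hw k) (hw l)).2 hkl)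
  have haw : ∀ k, Away F.F T (w k) := by
    intro k p hp hmem
    have h3 : (P k).p = p := by
      by_contra hc
      have hcop : IsCoprime ((P k).p : ℤ) (p : ℤ) := Nat.isCoprime_iff_coprime.2
        ((Nat.coprime_primes (P k).hp.out (hTp p hp)).2 hc)
      obtain ⟨a, b, hab⟩ := hcop
      apply (w k).isPrime.ne_top
      rw [Ideal.eq_top_iff_one]
      have h3 : ((a : 𝓞 F.F) * (((P k).p : ℕ) : 𝓞 F.F) + (b : 𝓞 F.F) * ((p : ℕ) : 𝓞 F.F)) = 1 := by
        have := congrArg (fun z : ℤ => (z : 𝓞 F.F)) hab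
        push_cast at this
        exact this
      rw [← h3]
      exact (w k).asIdeal.add_mem ((w k).asIdeal.mul_mem_left _ (hwp k))
        ((w k).asIdeal.mul_mem_left _ hmem)
    exact (hP k).2 (h3 ▸ hp)
  have hfin := not_away_finite F.F T hTp
  have hd : ∀ v ∈ Finset.univ.image w, v ∉ hfin.toFinset := by
    intro v hv hv'
    obtain ⟨k, -, rfl⟩ := Finset.mem_image.1 hv
    exact (hfin.mem_toFinset.1 hv') (haw k)
  obtain ⟨a, ha, ha'⟩ := approx_many hfin.toFinset (Finset.univ.image w) hd 1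
    (Function.extend w x 1)
  rw [div_one] at ha
  obtain ⟨t, ω, hω⟩ := kum_of ψ a
  refine ⟨ω, kum_chr hω, ?_, ?_, ?_⟩
  · intro Q hQ
    obtain ⟨v, hv, hvp⟩ := exists_pl ψ Q
    have h3 : ¬ Away F.F T v := fun h => h Q.p hQ hvp
    exact fix_pl hω Q hv ((mem_HSub.1 ha).1 v (hfin.mem_toFinset.2 h3))
  · intro c hc hcH
    exact Glue_real hω (mem_HSub.1 ha).2 hc hcH
  · intro k
    have h3 := ha' (w k) (Finset.mem_image_of_mem w (Finset.mem_univ k))
    rw [hinj.extend_apply] at h3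
    have h4 : LSq (w k) (a * x k) := by
      have h5 := LSq_mul h3 (LSq_sq (w k) (x k))
      have h6 : a / x k * x k ^ 2 = a * x k := by
        rw [pow_two, ← mul_assoc, div_mul_cancel]
      rwa [h6] at h5
    have h5 := fix_pl (hω.mul (hx k)) (P k) (hw k) h4
    intro h hh hhs
    have h6 := h5 h hh hhs
    rw [Pi.mul_apply, Pi.one_apply] at h6
    rw [eq_inv_of_mul_eq_one_left h6, Int.units_inv_eq_self]

end Pool.Agent.GJ
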