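import Pool.Agent.GJ.N.Pla
import Pool.Agent.GJ.R.Nm
import Pool.Agent.MD.F.Cho

/-!
# GJ/N-Norm: a norm which is not a square at a nonsplit place (paper B3)

`exists_norm`: `- x` or `r² - x t²` with `- x t²` close to `1` and `r² + 1` a nonsquare of the residue
field (if `-1` is no square there, the squares are not closed under `+ 1`).  `norm_nt`: `H = stb ψ`,
`s² = ψ x` belongs to the sign character of `H'` in `H`; the norm of the character of `t`,
`t² = ψ y1 + ψ y2 s`, is the character of `y1² - x y2²`.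
-/

namespace Pool.Agent.GJ

open MulAction Pool.Agent.H73.DU Pool.Agent.H73.AL Pool.Agent.LD Pool.Agent.TS

open NumberField IsDedekindDomain Pool.Agent.HWR Pool.Agent.QD Pool.Agent.MD

private theorem Norm_lsq {F : Type} [Field F] [NumberField F] {w : HeightOneSpectrum (𝓞 F)}
    (h2 : (2 : 𝓞 F) ∉ w.asIdeal) {x : Fˣ} (hx : uK w x = 1) : LSq w x :=
  LSq_of_LSq1 w h2 x (Pool.Agent.QD.uK_eq_one_iff.1 hx)

private theorem Norm_one {F : Type} [Field F] [NumberField F] {w : HeightOneSpectrum (𝓞 F)}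
    {a : 𝓞 F} : (a : F) ∈ N2.Rv w 1 ↔ a ∈ w.asIdeal := by
  have h := N2.int_mem_Rv_iff (v := w) a 1
  rw [pow_one] at h
  exact_mod_cast h

/-- the squares modulo `w` are not closed under `+ 1` if `-1` is no square -/
private theorem Norm_res {F : Type} [Field F] [NumberField F] (w : HeightOneSpectrum (𝓞 F))
    (h : ∀ s : 𝓞 F, s ^ 2 - (-1) ∉ w.asIdeal) :
    ∃ r : 𝓞 F, ∀ s : 𝓞 F, s ^ 2 - (r ^ 2 + 1) ∉ w.asIdeal := by
  by_contra hc
  push Not at hc
  have h1 : ∀ n : ℕ, ∃ s : 𝓞 F, s ^ 2 - (n : 𝓞 F) ∈ w.asIdeal := by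
    intro n
    induction n with
    | zero => exact ⟨0, by simp⟩
    | succ n ih =>
      obtain ⟨s, hs⟩ := ih
      obtain ⟨t, ht⟩ := hc s
      refine ⟨t, ?_⟩
      have h2 := w.asIdeal.add_mem ht hs
      have h3 : t ^ 2 - (s ^ 2 + 1) + (s ^ 2 - (n : 𝓞 F)) = t ^ 2 - ((n + 1 : ℕ) : 𝓞 F) := by
        push_cast
        ring
      rwa [h3] at h2
  have h4 : 0 < Ideal.absNorm w.asIdeal := by
    rw [Nat.pos_iff_ne_zero, Ne, Ideal.absNorm_eq_zero_iff]
    exact w.ne_bot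
  obtain ⟨n, hn⟩ : ∃ n, Ideal.absNorm w.asIdeal = n + 1 := ⟨_, (Nat.succ_pred_eq_of_pos h4).symm⟩
  have h5 := Ideal.absNorm_mem w.asIdeal
  rw [hn] at h5
  obtain ⟨s, hs⟩ := h1 n
  apply h s
  have h6 := w.asIdeal.add_mem hs h5
  have h7 : s ^ 2 - (n : 𝓞 F) + ((n + 1 : ℕ) : 𝓞 F) = s ^ 2 - (-1) := by
    push_cast
    ring
  rwa [h7] at h6

/-- the element-level statement: `x` no square at `w`; some `y1² - x y2²` is no square at `w` -/
theorem exists_norm {T : Finset ℕ} (h2 : 2 ∈ T) {F : Type} [Field F] [NumberField F]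
    {w : HeightOneSpectrum (𝓞 F)} (hw : Away F T w) {x : Fˣ} (hx : ¬ LSq w x) :
    ∃ (y1 y2 : F) (n : Fˣ), (n : F) = y1 ^ 2 - (x : F) * y2 ^ 2 ∧ ¬ LSq w n := by
  have h2w : (2 : 𝓞 F) ∉ w.asIdeal := by
    have := hw 2 h2
    exact_mod_cast this
  by_cases hn : LSq w (-x)
  · have hm1 : ¬ LSq w (-1 : Fˣ) := by
      intro h
      apply hx
      have h3 := LSq_mul hn h
      have h4 : -x * (-1 : Fˣ) = x := by rw [mul_neg_one, neg_neg]
      rwa [h4] at h3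
    have ho1 : ordK w (1 : Fˣ) = 0 := N2.ordK_one
    have hom1 : ordK w (-1 : Fˣ) = 0 := by
      rw [← ho1]
      unfold ordK
      rw [Units.val_neg, Valuation.map_neg]
    have hres : ∀ s : 𝓞 F, s ^ 2 - (-1) ∉ w.asIdeal := by
      intro s hs
      apply hm1
      apply Norm_lsq h2w
      refine (N2.uK_eq_one_iff hom1 (c := -1) ?_).2 ⟨s, hs⟩
      have h3 : (((-1 : 𝓞 F) : F)) - ((-1 : Fˣ) : F) = 0 := by
        rw [Units.val_neg, Units.val_one]
        push_cast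
        ring
      rw [h3]
      exact (N2.Rv w 1).zero_mem
    obtain ⟨r, hr⟩ := Norm_res w hres
    obtain ⟨t, ht⟩ := hn 1
    rw [N2.closeOne_iff] at ht
    have hcl : (((r ^ 2 + 1 : 𝓞 F) : F)) - ((r : F) ^ 2 - (x : F) * (t : F) ^ 2) ∈ N2.Rv w 1 := by
      have h3 : (((r ^ 2 + 1 : 𝓞 F) : F)) - ((r : F) ^ 2 - (x : F) * (t : F) ^ 2)
          = -(((-x : Fˣ) : F) * (t : F) ^ 2 - 1) := by
        rw [Units.val_neg]
        push_cast
        ring
      rw [h3]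
      refine (N2.Rv w 1).neg_mem ?_
      exact_mod_cast ht
    have hr0 : r ^ 2 + 1 ∉ w.asIdeal := by
      intro h
      apply hres r
      rwa [sub_neg_eq_add]
    have hne : (r : F) ^ 2 - (x : F) * (t : F) ^ 2 ≠ 0 := by
      intro h
      rw [h, sub_zero] at hcl
      exact hr0 (Norm_one.1 hcl)
    have hc0 : ((r ^ 2 + 1 : 𝓞 F) : F) ≠ 0 := by
      intro h
      apply hr0
      have h3 : (r ^ 2 + 1 : 𝓞 F) = 0 := by exact_mod_cast h
      rw [h3]
      exact w.asIdeal.zero_mem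
    have hoc : ordK w (Units.mk0 _ hc0) = 0 := by
      refine le_antisymm ?_ ?_
      · by_contra h
        push Not at h
        have h3 : ((Units.mk0 _ hc0 : Fˣ) : F) ∈ N2.Rv w 1 := N2.mem_Rv.2 (by omega)
        exact hr0 (Norm_one.1 h3)
      · exact N2.mem_Rv.1 (N2.int_mem_Rv (v := w) (r ^ 2 + 1))
    have hon : ordK w (Units.mk0 _ hne) = 0 := by
      rw [← hoc]
      refine N2.ordK_eq_of_close ?_
      rw [hoc, zero_add]
      have h3 := (N2.Rv w 1).neg_mem hcl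
      have h4 : ((Units.mk0 _ hne : Fˣ) : F) - ((Units.mk0 _ hc0 : Fˣ) : F)
          = -((((r ^ 2 + 1 : 𝓞 F) : F)) - ((r : F) ^ 2 - (x : F) * (t : F) ^ 2)) := by
        rw [Units.val_mk0, Units.val_mk0]
        ring
      rw [h4]
      exact h3
    refine ⟨r, t, Units.mk0 _ hne, rfl, fun h => ?_⟩
    obtain ⟨s, hs⟩ := (N2.uK_eq_one_iff hon (c := r ^ 2 + 1) (by rw [Units.val_mk0]; exact hcl)).1
      (Pool.Agent.QD.uK_of_LSq h)
    exact hr s hs
  · refine ⟨0, 1, -x, ?_, hn⟩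
    rw [Units.val_neg]
    ring

private theorem Norm_cast {t : AlgebraicClosure ℚ} (ht : t ≠ 0) {u v : ℤˣ}
    (h : ((u : ℤ) : AlgebraicClosure ℚ) * t = ((v : ℤ) : AlgebraicClosure ℚ) * t) : u = v := by
  have h1 := mul_right_cancel₀ ht h
  have h2 : (u : ℤ) = (v : ℤ) := by exact_mod_cast h1
  exact Units.ext h2

private theorem Norm_int (g : GQ) (u : ℤˣ) (t : AlgebraicClosure ℚ) :
    g (((u : ℤ) : AlgebraicClosure ℚ) * t) = ((u : ℤ) : AlgebraicClosure ℚ) * g t := by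
  rw [map_mul, map_intCast]

private theorem Norm_app (a b : GQ) (t : AlgebraicClosure ℚ) : (a * b) t = a (b t) := rfl

private theorem Norm_chr {H' : Subgroup GQ} (hH' : IsOpen (H' : Set GQ)) {t : AlgebraicClosure ℚ}
    (ht0 : t ≠ 0) (ht : ∀ g ∈ H', g (t ^ 2) = t ^ 2) :
    ∃ ζ : GQ → ℤˣ, IsChr H' ζ ∧ ∀ g ∈ H', g t = ((ζ g : ℤ) : AlgebraicClosure ℚ) * t := by
  classical
  obtain ⟨ζ, hζ, hζ1⟩ : ∃ ζ : GQ → ℤˣ, (∀ g ∈ H', g t = ((ζ g : ℤ) : AlgebraicClosure ℚ) * t) ∧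
      ∀ g, g t = t → ζ g = 1 := by
    refine ⟨fun g => if g t = t then 1 else -1, fun g hg => ?_, fun g hg => if_pos hg⟩
    beta_reduce
    by_cases h : g t = t
    · rw [if_pos h, h, Units.val_one, Int.cast_one, one_mul]
    · rw [if_neg h]
      have h1 := ht g hg
      rw [map_pow] at h1
      rcases sq_eq_sq_iff_eq_or_eq_neg.1 h1 with h2 | h2
      · exact absurd h2 h
      · rw [h2, Units.val_neg, Units.val_one, Int.cast_neg, Int.cast_one, neg_one_mul]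
  have hm : Mulp H' ζ := by
    intro a ha b hb
    apply Norm_cast ht0
    rw [← hζ (a * b) (H'.mul_mem ha hb), Norm_app, hζ b hb, Norm_int, hζ a ha, Units.val_mul]
    push_cast
    ring
  refine ⟨ζ, ⟨hm, ?_⟩, hζ⟩
  have hint : IsIntegral ℚ t := by
    have : Algebra.IsAlgebraic ℚ (AlgebraicClosure ℚ) := AlgebraicClosure.isAlgebraic ℚ
    exact (Algebra.IsAlgebraic.isAlgebraic t).isIntegral
  have hfin : FiniteDimensional ℚ (IntermediateField.adjoin ℚ {t}) :=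
    IntermediateField.adjoin.finiteDimensional hint
  have h1 : IsOpen (((IntermediateField.adjoin ℚ {t}).fixingSubgroup : Subgroup GQ) : Set GQ) :=
    IntermediateField.fixingSubgroup_isOpen _
  have h3 : IsOpen ((H' ⊓ (IntermediateField.adjoin ℚ {t}).fixingSubgroup : Subgroup GQ) :
      Set GQ) := hH'.inter h1
  refine Subgroup.isOpen_mono ?_ h3
  intro g hg
  rw [mem_kr hm]
  exact ⟨hg.1, hζ1 g (hg.2 ⟨t, IntermediateField.mem_adjoin_simple_self ℚ t⟩)⟩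

private theorem Norm_fix {F : Type} [Field F] {ψ : F →+* AlgebraicClosure ℚ} {g : GQ}
    (hg : g ∈ stb ψ) (y : F) : g (ψ y) = ψ y := by
  have h1 : g • ψ = ψ := MulAction.mem_stabilizer_iff.1 hg
  have h2 : (g • ψ) y = g (ψ y) := rfl
  rw [← h2, h1]

private theorem Norm_two {F : Type} [Field F] [NumberField F] {w : HeightOneSpectrum (𝓞 F)}
    {p : ℕ} (hp : p.Prime) (hp2 : p ≠ 2) (h1 : (p : 𝓞 F) ∈ w.asIdeal) :
    (2 : 𝓞 F) ∉ w.asIdeal := by
  intro h2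
  obtain ⟨k, hk⟩ := hp.odd_of_ne_two hp2
  apply w.isPrime.ne_top
  rw [Ideal.eq_top_iff_one]
  have h3 := w.asIdeal.sub_mem h1 (w.asIdeal.mul_mem_right (k : 𝓞 F) h2)
  have h4 : (p : 𝓞 F) - 2 * (k : 𝓞 F) = 1 := by
    rw [hk]
    push_cast
    ring
  rwa [h4] at h3

theorem norm_nt {V T : Finset ℕ} (h2 : 2 ∈ T) {H H' : Subgroup GQ} (hH : IsOpen (H : Set GQ))
    (hH' : IsOpen (H' : Set GQ)) (hle : H' ≤ H) (hi : H'.relIndex H = 2) {τ : GQ} (hτ : τ ∈ H)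
    (hτ' : τ ∉ H') {P : Pl} (hP : Pin V T P) (hns : ¬ P.D ⊓ H ≤ H') :
    ∃ ζ : GQ → ℤˣ, IsChr H' ζ ∧ NtAt H P (nm H' τ ζ) := by
  classical
  obtain ⟨F, ψ, hψ, -, -⟩ := exists_nf H hH
  subst hψ
  have hmem : ∀ {a b : GQ}, a ∈ stb ψ → b ∈ stb ψ → (a * b ∈ H' ↔ (a ∈ H' ↔ b ∈ H')) := by
    intro a b ha hb
    have h1 := Subgroup.mul_mem_iff_of_index_two (H := H'.subgroupOf (stb ψ)) hi (a := ⟨a, ha⟩)
      (b := ⟨b, hb⟩)
    simpa only [Subgroup.mem_subgroupOf, Subgroup.coe_mul] using h1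
  have hinv : τ⁻¹ ∈ stb ψ := (stb ψ).inv_mem hτ
  have hinv' : τ⁻¹ ∉ H' := fun h => hτ' (inv_mem_iff.1 h)
  -- the sign character
  obtain ⟨χ, hχ1, hχ2⟩ : ∃ χ : GQ → ℤˣ, (∀ g ∈ H', χ g = 1) ∧ ∀ g ∉ H', χ g = -1 :=
    ⟨fun g => if g ∈ H' then 1 else -1, fun g hg => if_pos hg, fun g hg => if_neg hg⟩
  have hχm : Mulp (stb ψ) χ := by
    intro a ha b hb
    by_cases h3 : a ∈ H'
    · by_cases h4 : b ∈ H'
      · rw [hχ1 _ (H'.mul_mem h3 h4), hχ1 _ h3, hχ1 _ h4, one_mul]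
      · rw [hχ2 _ (fun h => h4 (((hmem ha hb).1 h).1 h3)), hχ1 _ h3, hχ2 _ h4, one_mul]
    · by_cases h4 : b ∈ H'
      · rw [hχ2 _ (fun h => h3 (((hmem ha hb).1 h).2 h4)), hχ2 _ h3, hχ1 _ h4, mul_one]
      · rw [hχ1 _ ((hmem ha hb).2 ⟨fun h => absurd h h3, fun h => absurd h h4⟩), hχ2 _ h3,
          hχ2 _ h4]
        decide
  have hχ : IsChr (stb ψ) χ := by
    refine ⟨hχm, Subgroup.isOpen_mono ?_ hH'⟩
    intro g hg
    exact (mem_kr hχm).2 ⟨hle hg, hχ1 g hg⟩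
  obtain ⟨x, s, hx⟩ := of_chr ψ hχ
  obtain ⟨w, hw, hwp⟩ := exists_pl ψ P
  have hxw : ¬ LSq w x := by
    intro h
    have h3 := (eqAt_iff h2 hx hP hw).2 h
    apply hns
    intro g hg
    by_contra hg'
    have h4 := h3 g hg.1 hg.2
    rw [hχ2 g hg', Pi.one_apply] at h4
    exact absurd h4 (by decide)
  have hp2 : P.p ≠ 2 := by
    intro h
    exact hP.2 (h ▸ h2)
  have haw : Away F.F {2} w := by
    intro q hq
    rw [Finset.mem_singleton] at hq
    subst hq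
    have := Norm_two P.hp.out hp2 hwp
    exact_mod_cast this
  obtain ⟨y1, y2, n, hn, hnw⟩ := exists_norm (Finset.mem_singleton_self 2) haw hxw
  have hs2 := hx.1
  have hsH : ∀ g ∈ H', g s = s := by
    intro g hg
    rw [hx.2 g (hle hg), hχ1 g hg, Units.val_one, Int.cast_one, one_mul]
  have hsτ : τ⁻¹ s = -s := by
    rw [hx.2 _ hinv, hχ2 _ hinv', Units.val_neg, Units.val_one, Int.cast_neg, Int.cast_one,
      neg_one_mul]
  have hzτ : τ⁻¹ (ψ y1 + ψ y2 * s) = ψ y1 - ψ y2 * s := by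
    rw [map_add, map_mul, Norm_fix hinv, Norm_fix hinv, hsτ]
    ring
  have hzz : (ψ y1 + ψ y2 * s) * (ψ y1 - ψ y2 * s) = ψ (n : F.F) := by
    rw [hn, map_sub, map_mul, map_pow, map_pow, ← hs2]
    ring
  have hz0 : ψ y1 + ψ y2 * s ≠ 0 := by
    intro h
    rw [h, zero_mul] at hzz
    exact n.ne_zero (ψ.injective (by rw [← hzz, map_zero]))
  obtain ⟨t, ht⟩ := IsAlgClosed.exists_pow_nat_eq (ψ y1 + ψ y2 * s) (n := 2) two_pos
  have ht0 : t ≠ 0 := by
    intro h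
    apply hz0
    rw [← ht, h]
    ring
  obtain ⟨ζ, hζ, hζt⟩ := Norm_chr hH' ht0 (by
    intro g hg
    rw [ht, map_add, map_mul, Norm_fix (hle hg), Norm_fix (hle hg), hsH g hg])
  refine ⟨ζ, hζ, ?_⟩
  have hkum : Kum ψ n (t * τ⁻¹ t) (nm H' τ ζ) := by
    refine ⟨?_, fun h hh => ?_⟩
    · rw [mul_pow, ← map_pow, ht, hzτ, hzz]
    · have hg2 : ∀ g ∈ H', g (τ⁻¹ t) = ((ζ (τ * g * τ⁻¹) : ℤ) : AlgebraicClosure ℚ) * τ⁻¹ t := by
        intro g hg
        have h3 : τ * g * τ⁻¹ ∈ H' := by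
          rw [hmem ((stb ψ).mul_mem hτ (hle hg)) hinv, hmem hτ (hle hg), inv_mem_iff]
          exact ⟨fun h4 => h4.2 hg, fun h4 => absurd h4 hτ'⟩
        have h4 : g (τ⁻¹ t) = τ⁻¹ ((τ * g * τ⁻¹) t) := by
          rw [← Norm_app, ← Norm_app]
          congr 1
          group
        rw [h4, hζt _ h3, Norm_int]
      by_cases hh' : h ∈ H'
      · have h3 : nm H' τ ζ h = ζ h * ζ (τ * h * τ⁻¹) := if_pos hh'
        rw [h3, map_mul, hζt h hh', hg2 h hh', Units.val_mul]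
        push_cast
        ring
      · have h3 : nm H' τ ζ h = ζ (h * h) := if_neg hh'
        have h5 : h * τ⁻¹ ∈ H' :=
          (hmem hh hinv).2 ⟨fun h6 => absurd h6 hh', fun h6 => absurd h6 hinv'⟩
        have h6 : h * τ ∈ H' :=
          (hmem hh hτ).2 ⟨fun h7 => absurd h7 hh', fun h7 => absurd h7 hτ'⟩
        have h7 : τ * h ∈ H' :=
          (hmem hτ hh).2 ⟨fun h8 => absurd h8 hτ', fun h8 => absurd h8 hh'⟩
        have h8 : h (τ⁻¹ t) = ((ζ (h * τ⁻¹) : ℤ) : AlgebraicClosure ℚ) * t := by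
          rw [← hζt _ h5, Norm_app]
        have h9 : h t = ((ζ (τ * h) : ℤ) : AlgebraicClosure ℚ) * τ⁻¹ t := by
          have h10 : h t = (h * τ) (τ⁻¹ t) := by
            rw [← Norm_app]
            congr 1
            group
          have h11 : τ * (h * τ) * τ⁻¹ = τ * h := by group
          rw [h10, hg2 _ h6, h11]
        have h12 : ζ (h * h) = ζ (h * τ⁻¹) * ζ (τ * h) := by
          rw [← hζ.1 _ h5 _ h7]
          congr 1
          group
        rw [h3, map_mul, h8, h9, h12, Units.val_mul]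
        push_cast
        ring
  by_contra hc
  apply hnw
  refine (eqAt_iff h2 hkum hP hw).1 ?_
  intro g hg hg1
  by_contra hne
  exact hc ⟨g, hg, hg1, hne⟩

end Pool.Agent.GJ
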