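import Pool.Agent.GJ.N.Pla
import Pool.Agent.TS.V.Sub
import Pool.Agent.QD.In.Ex

/-!
# GJ/N-Reps: finitely many places

`H = stb ψ`; the places of the field over the primes of `V ∖ T` are finite (`not_away_finite`); by `exists_pl` and `peq_iff` the classes of the `P` with `Pin V T P` inject in the set of these places.  `ι` = the finite set of the places induced by some `P` with `Pin V T P ∧ F P`, with representatives.
-/

namespace Pool.Agent.GJ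

open MulAction Pool.Agent.H73.DU Pool.Agent.H73.AL Pool.Agent.LD Pool.Agent.TS

open NumberField IsDedekindDomain Pool.Agent.HWR Pool.Agent.QD Pool.Agent.MD

theorem exists_reps (V T : Finset ℕ) {H : Subgroup GQ}
    (hH : IsOpen (H : Set GQ)) (F : Pl → Prop) : ∃ (ι : Type) (_ : Fintype ι) (P : ι → Pl),
      (∀ k, Pin V T (P k) ∧ F (P k)) ∧ (∀ k l, k ≠ l → ¬ PEq H (P k) (P l)) ∧
      ∀ Q : Pl, Pin V T Q → F Q → ∃ k, PEq H (P k) Q := by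
  classical
  obtain ⟨K, ψ, hψ, -, -⟩ := exists_nf H hH
  have hfin := Pool.Agent.QD.In.not_away_finite K.F (V.filter fun p => p.Prime ∧ p ∉ T)
    (fun p hp => (Finset.mem_filter.1 hp).2.1)
  have hfin2 : {w : HeightOneSpectrum (𝓞 K.F) | ∃ P : Pl, Pin V T P ∧ F P ∧
      IsPl P.p (P.g⁻¹ • ψ) w ∧ ((P.p : ℕ) : 𝓞 K.F) ∈ w.asIdeal}.Finite := by
    refine hfin.subset ?_
    rintro w ⟨P, hP, -, -, hw⟩ hA
    exact hA P.p (Finset.mem_filter.2 ⟨hP.1, P.hp.out, hP.2⟩) hw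
  have hft : Fintype {w : HeightOneSpectrum (𝓞 K.F) | ∃ P : Pl, Pin V T P ∧ F P ∧
      IsPl P.p (P.g⁻¹ • ψ) w ∧ ((P.p : ℕ) : 𝓞 K.F) ∈ w.asIdeal} := hfin2.fintype
  have hch : ∀ w : {w : HeightOneSpectrum (𝓞 K.F) | ∃ P : Pl, Pin V T P ∧ F P ∧
      IsPl P.p (P.g⁻¹ • ψ) w ∧ ((P.p : ℕ) : 𝓞 K.F) ∈ w.asIdeal}, ∃ P : Pl, Pin V T P ∧ F P ∧
      IsPl P.p (P.g⁻¹ • ψ) w.1 ∧ ((P.p : ℕ) : 𝓞 K.F) ∈ w.1.asIdeal := fun w => w.2
  choose P hP1 hP2 hP3 hP4 using hch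
  subst hψ
  refine ⟨_, hft, P, fun k => ⟨hP1 k, hP2 k⟩, fun k l hkl h => hkl ?_, fun Q hQ hFQ => ?_⟩
  · exact Subtype.ext ((peq_iff ψ (hP3 k) (hP3 l)).1 h)
  · obtain ⟨w, hw, hwm⟩ := exists_pl ψ Q
    exact ⟨⟨w, Q, hQ, hFQ, hw, hwm⟩, (peq_iff ψ (hP3 ⟨w, Q, hQ, hFQ, hw, hwm⟩) hw).2 rfl⟩

end Pool.Agent.GJ
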