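import Pool.Agent.GJ.N.Pla
import Pool.Agent.MD.F.Cho
import Pool.Agent.QD.In.V0a
import Pool.Agent.TS.V.Sub

/-!
# GJ/N-Four: four classes (paper B2)

At a place `P` of odd residue characteristic the quadratic characters of `H` have exactly four classes:
`1`, the character `u` of a nonsquare unit, the character `π` of a uniformizer, and `u * π` (`loc_class` of
QD/In/V0a and the Kummer characters of GJ/N-Kum). `third`, `class_eq` are consequences.
-/

namespace Pool.Agent.GJ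

open MulAction Pool.Agent.H73.DU Pool.Agent.H73.AL Pool.Agent.LD Pool.Agent.TS

open NumberField IsDedekindDomain Pool.Agent.HWR Pool.Agent.QD

private theorem Four_prime {F : Type} [Field F] [NumberField F] {w : HeightOneSpectrum (𝓞 F)}
    {p q : ℕ} (hp : p.Prime) (hq : q.Prime) (h1 : (p : 𝓞 F) ∈ w.asIdeal)
    (h2 : (q : 𝓞 F) ∈ w.asIdeal) : p = q := by
  by_contra hne
  have hc : IsCoprime (p : ℤ) (q : ℤ) :=
    Nat.isCoprime_iff_coprime.2 ((Nat.coprime_primes hp hq).2 hne)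
  obtain ⟨a, b, hab⟩ := hc
  apply w.isPrime.ne_top
  rw [Ideal.eq_top_iff_one]
  have h3 : ((a : 𝓞 F) * (p : 𝓞 F) + (b : 𝓞 F) * (q : 𝓞 F)) = 1 := by
    have := congrArg (fun z : ℤ => (z : 𝓞 F)) hab
    push_cast at this
    exact this
  rw [← h3]
  exact w.asIdeal.add_mem (w.asIdeal.mul_mem_left _ h1) (w.asIdeal.mul_mem_left _ h2)

private theorem Four_self (a : ℤˣ) : a * a = 1 := by
  rcases Int.units_eq_one_or a with h | h <;> rw [h] <;> decide

private theorem Four_mul {a b : ℤˣ} : a * b = 1 ↔ a = b := by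
  constructor
  · intro h
    have h1 : a * b * b = b := by rw [h, one_mul]
    rwa [mul_assoc, Four_self, mul_one] at h1
  · intro h
    rw [h, Four_self]

private theorem Four_eq {H : Subgroup GQ} {P : Pl} {χ η : GQ → ℤˣ} :
    EqAt H P (χ * η) 1 ↔ EqAt H P χ η := by
  constructor
  · intro h x hx hx'
    have h1 := h x hx hx'
    rw [Pi.mul_apply, Pi.one_apply] at h1
    exact Four_mul.1 h1
  · intro h x hx hx'
    rw [Pi.mul_apply, Pi.one_apply]
    exact Four_mul.2 (h x hx hx')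

private theorem Four_nt {H : Subgroup GQ} {P : Pl} {χ : GQ → ℤˣ} :
    NtAt H P χ ↔ ¬ EqAt H P χ 1 := by
  constructor
  · rintro ⟨x, hx, hx', h⟩ h1
    exact h (h1 x hx hx')
  · intro h
    by_contra hc
    apply h
    intro x hx hx'
    by_contra h1
    exact hc ⟨x, hx, hx', h1⟩

private theorem Four_nsq_neg {K : Type} [Field K] [NumberField K] {w : HeightOneSpectrum (𝓞 K)}
    {x : Kˣ} (hx : uK w x = -1) : ¬ LSq w x := by
  intro h
  have h1 : uK w x = 1 := uK_of_LSq h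
  rw [hx] at h1
  norm_num at h1

private theorem Four_nsq_odd {K : Type} [Field K] [NumberField K] {w : HeightOneSpectrum (𝓞 K)}
    {x : Kˣ} (hx : Odd (ordK w x)) : ¬ LSq w x := by
  intro h
  have h1 : uK w x = 1 := uK_of_LSq h
  have h2 : uK w x = 0 := uK_eq_zero_iff.2 hx
  rw [h1] at h2
  exact absurd h2 one_ne_zero

private theorem Four_odd {K : Type} [Field K] [NumberField K] {w : HeightOneSpectrum (𝓞 K)}
    {e p : Kˣ} (he : uK w e = -1) (hp : ordK w p = 1) : Odd (ordK w (e * p)) := by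
  have h1 : ¬ Odd (ordK w e) := by
    intro h
    have h2 : uK w e = 0 := uK_eq_zero_iff.2 h
    rw [he] at h2
    norm_num at h2
  rw [Int.not_odd_iff_even] at h1
  have h2 : ordK w (e * p) = ordK w e + ordK w p := Pool.Agent.QD.ordK_mul w e p
  rw [h2, hp]
  exact h1.add_odd odd_one

private theorem Four_lsq {K : Type} [Field K] [NumberField K] {w : HeightOneSpectrum (𝓞 K)}
    {x y : Kˣ} (h : LSq w (x / y)) : LSq w (x * y) := by
  have h1 : LSq w ((x / y) * y ^ 2) := LSq_mul h (LSq_sq w y)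
  have h2 : (x / y) * y ^ 2 = x * y := by
    rw [pow_two, ← mul_assoc, div_mul_cancel]
  rwa [h2] at h1

theorem four {V T : Finset ℕ} (h2 : 2 ∈ T) {H : Subgroup GQ} (hH : IsOpen (H : Set GQ)) {P : Pl}
    (hP : Pin V T P) : ∃ u π : GQ → ℤˣ, IsChr H u ∧ IsChr H π ∧ NtAt H P u ∧ NtAt H P π ∧
      NtAt H P (u * π) ∧ ∀ χ : GQ → ℤˣ, IsChr H χ →
        EqAt H P χ 1 ∨ EqAt H P χ u ∨ EqAt H P χ π ∨ EqAt H P χ (u * π) := by
  obtain ⟨F, ψ, rfl, -, -⟩ := exists_nf H hH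
  obtain ⟨w, hw, hwp⟩ := exists_pl ψ P
  have h2w : (2 : 𝓞 F.F) ∉ w.asIdeal := by
    intro h
    have h3 : P.p = 2 := Four_prime P.hp.out Nat.prime_two hwp (by exact_mod_cast h)
    exact hP.2 (h3 ▸ h2)
  obtain ⟨e, he⟩ := Pool.Agent.LD.exists_nonres w h2w
  obtain ⟨p, hp⟩ := Pool.Agent.QD.N2.exists_ordK w 1
  have hpo : Odd (ordK w p) := by rw [hp]; exact odd_one
  obtain ⟨se, u, hu⟩ := kum_of ψ e
  obtain ⟨sp, π, hπ⟩ := kum_of ψ p
  refine ⟨u, π, kum_chr hu, kum_chr hπ, ?_, ?_, ?_, ?_⟩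
  · rw [Four_nt, eqAt_iff h2 hu hP hw]
    exact Four_nsq_neg he
  · rw [Four_nt, eqAt_iff h2 hπ hP hw]
    exact Four_nsq_odd hpo
  · rw [Four_nt, eqAt_iff h2 (hu.mul hπ) hP hw]
    exact Four_nsq_odd (Four_odd he hp)
  · intro χ hχ
    obtain ⟨x, s, hx⟩ := of_chr ψ hχ
    obtain ⟨j, hj, -⟩ := Pool.Agent.QD.In.loc_class w h2w he hpo x
    rcases j with ⟨a, b⟩
    unfold Pool.Agent.QD.In.rp at hj
    cases a <;> cases b
    · refine Or.inl ((eqAt_iff h2 hx hP hw).2 ?_)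
      simpa using hj
    · refine Or.inr (Or.inr (Or.inl (Four_eq.1 ((eqAt_iff h2 (hx.mul hπ) hP hw).2 (Four_lsq ?_)))))
      simpa using hj
    · refine Or.inr (Or.inl (Four_eq.1 ((eqAt_iff h2 (hx.mul hu) hP hw).2 (Four_lsq ?_))))
      simpa using hj
    · refine Or.inr (Or.inr (Or.inr (Four_eq.1 ((eqAt_iff h2 (hx.mul (hu.mul hπ)) hP hw).2
        (Four_lsq ?_)))))
      simpa using hj

private theorem Four_tr {H : Subgroup GQ} {P : Pl} {a b c : GQ → ℤˣ} (h1 : EqAt H P a c)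
    (h2 : EqAt H P b c) : EqAt H P (a * b) 1 := by
  intro x hx hx'
  rw [Pi.mul_apply, h1 x hx hx', h2 x hx hx', Four_self, Pi.one_apply]

private theorem Four_cong {H : Subgroup GQ} {P : Pl} {θ χ c d : GQ → ℤˣ} (h : EqAt H P χ c)
    (hd : θ * c = d) (hn : NtAt H P d) : NtAt H P (θ * χ) := by
  obtain ⟨x, hx, hx', h1⟩ := hn
  refine ⟨x, hx, hx', ?_⟩
  rw [← hd, Pi.mul_apply] at h1
  rwa [Pi.mul_apply, h x hx hx']

private theorem Four_two {H : Subgroup GQ} {P : Pl} {u π : GQ → ℤˣ} (n1 : NtAt H P u)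
    (n2 : NtAt H P π) (n3 : NtAt H P (u * π)) {χ : GQ → ℤˣ}
    (hc : EqAt H P χ 1 ∨ EqAt H P χ u ∨ EqAt H P χ π ∨ EqAt H P χ (u * π)) :
    (NtAt H P (u * χ) ∧ NtAt H P (π * χ)) ∨ (NtAt H P (u * χ) ∧ NtAt H P (u * π * χ)) ∨
      (NtAt H P (π * χ) ∧ NtAt H P (u * π * χ)) := by
  have f1 : u * (u * π) = π := by
    funext x
    rw [Pi.mul_apply, Pi.mul_apply, ← mul_assoc, Four_self, one_mul]
  have f2 : π * u = u * π := mul_comm π u
  have f3 : π * (u * π) = u := by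
    funext x
    rw [Pi.mul_apply, Pi.mul_apply, mul_comm, mul_assoc, Four_self, mul_one]
  have f4 : u * π * u = π := by rw [mul_comm, f1]
  have f5 : u * π * π = u := by rw [mul_comm, f3]
  rcases hc with c | c | c | c
  · exact Or.inl ⟨Four_cong c (mul_one _) n1, Four_cong c (mul_one _) n2⟩
  · exact Or.inr (Or.inr ⟨Four_cong c f2 n3, Four_cong c f4 n2⟩)
  · exact Or.inr (Or.inl ⟨Four_cong c rfl n3, Four_cong c f5 n1⟩)
  · exact Or.inl ⟨Four_cong c f1 n2, Four_cong c f3 n1⟩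

/-- a third nontrivial class -/
theorem third {V T : Finset ℕ} (h2 : 2 ∈ T) {H : Subgroup GQ} (hH : IsOpen (H : Set GQ)) {P : Pl}
    (hP : Pin V T P) {χ η : GQ → ℤˣ} (hχ : IsChr H χ) (hη : IsChr H η) :
    ∃ θ : GQ → ℤˣ, IsChr H θ ∧ NtAt H P θ ∧ NtAt H P (θ * χ) ∧ NtAt H P (θ * η) := by
  obtain ⟨u, π, hu, hπ, n1, n2, n3, hc⟩ := four h2 hH hP
  have hm : IsChr H (u * π) := by
    refine ⟨hu.1.mul hπ.1, ?_⟩
    have h3 : IsOpen ((kr H u ⊓ kr H π : Subgroup GQ) : Set GQ) := hu.2.inter hπ.2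
    refine Subgroup.isOpen_mono ?_ h3
    rintro g ⟨hg, hg'⟩
    refine (mem_kr (hu.1.mul hπ.1)).2 ⟨hg.1, ?_⟩
    rw [Pi.mul_apply, ((mem_kr hu.1).1 hg).2, ((mem_kr hπ.1).1 hg').2, mul_one]
  rcases Four_two n1 n2 n3 (hc χ hχ) with ⟨a, b⟩ | ⟨a, b⟩ | ⟨a, b⟩ <;>
  rcases Four_two n1 n2 n3 (hc η hη) with ⟨a', b'⟩ | ⟨a', b'⟩ | ⟨a', b'⟩ <;>
  first
    | exact ⟨u, hu, n1, a, a'⟩
    | exact ⟨u, hu, n1, a, b'⟩
    | exact ⟨π, hπ, n2, a, a'⟩
    | exact ⟨π, hπ, n2, b, a'⟩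
    | exact ⟨π, hπ, n2, a, b'⟩
    | exact ⟨π, hπ, n2, b, b'⟩
    | exact ⟨u * π, hm, n3, b, b'⟩

/-- if `χ`, `η` are nontrivial and different at `P`, then every `θ` nontrivial at `P` agrees with
`χ`, `η` or `χ * η` -/
theorem class_eq {V T : Finset ℕ} (h2 : 2 ∈ T) {H : Subgroup GQ} (hH : IsOpen (H : Set GQ)) {P : Pl}
    (hP : Pin V T P) {χ η θ : GQ → ℤˣ} (hχ : IsChr H χ) (hη : IsChr H η) (hθ : IsChr H θ)
    (h1 : NtAt H P χ) (h3 : NtAt H P η) (h4 : NtAt H P (χ * η)) (h5 : NtAt H P θ) :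
    EqAt H P θ χ ∨ EqAt H P θ η ∨ EqAt H P θ (χ * η) := by
  obtain ⟨u, π, -, -, -, -, -, hc⟩ := four h2 hH hP
  rw [Four_nt] at h1 h3 h4 h5
  rcases hc χ hχ with a | a | a | a <;> rcases hc η hη with b | b | b | b <;>
  rcases hc θ hθ with c | c | c | c <;>
  first
    | exact absurd a h1
    | exact absurd b h3
    | exact absurd c h5
    | exact absurd (Four_tr a b) h4
    | exact Or.inl fun x hx hx' => (c x hx hx').trans (a x hx hx').symm
    | exact Or.inr (Or.inl fun x hx hx' => (c x hx hx').trans (b x hx hx').symm)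
    | (refine Or.inr (Or.inr fun x hx hx' => ?_)
       rw [Pi.mul_apply, c x hx hx', a x hx hx', b x hx hx']
       rcases Int.units_eq_one_or (u x) with h | h <;>
       rcases Int.units_eq_one_or (π x) with h' | h' <;> simp [h, h'])

end Pool.Agent.GJ
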