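import Pool.Agent.GJ.Bas
import Pool.Agent.TS.L.Ext

/-!
# GJ/N-Kum: characters and Kummer theory

`Kum ψ x s χ`: `s² = ψ x` and `h s = χ h s` for `h` in the stabilizer of `ψ`.  PLAN.  `kum_of`: `s` a square root, `χ h = 1` if `h s = s`, `-1` otherwise; `h s = ± s` for `h ∈ stb ψ`.  `kum_chr`: multiplicative; the kernel is `stb ψ ⊓ stabilizer s`, open (see `ext_open` in TS/L/Ext).
`of_chr`: `χ` trivial on `stb ψ`: `x = 1`.  Otherwise `L = kr (stb ψ) χ` is open of index `2` in `stb ψ`; the fixed field of `L` is a quadratic extension of `ψ(F)` (`exists_nf`, TS/V/Sub, or Galois theory of `AlgebraicClosure ℚ`): it is `ψ(F)(s)` with `s² ∈ ψ(F)`, `s ∉ ψ (F)`; alternatively: take `z` fixed by `L`, not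
by `stb ψ` (an element of the fixed field of `L` not in that of `stb ψ`, Galois correspondence for open subgroups), `s = z - τ z`, `τ ∈ stb ψ` outside `L`: `h s = χ h s`, `s ≠ 0`, `s²` is fixed by `stb ψ`, so in `ψ (F)`.
-/

namespace Pool.Agent.GJ

open MulAction Pool.Agent.H73.DU Pool.Agent.H73.AL Pool.Agent.LD Pool.Agent.TS

open NumberField

/-- `χ` is the character of `ψ(F)(s)`, `s² = ψ x` -/
def Kum {F : Type} [Field F] (ψ : F →+* AlgebraicClosure ℚ) (x : Fˣ) (s : AlgebraicClosure ℚ)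
    (χ : GQ → ℤˣ) : Prop :=
  s ^ 2 = ψ (x : F) ∧ ∀ h ∈ stb ψ, h s = ((χ h : ℤ) : AlgebraicClosure ℚ) * s

private theorem kum_alg (inst : Algebra ℚ (AlgebraicClosure ℚ)) :
    IsAlgClosure ℚ (AlgebraicClosure ℚ) := by
  have h : inst = AlgebraicClosure.instAlgebra ℚ := Subsingleton.elim _ _
  subst h
  infer_instance

private theorem kum_gal : IsGalois ℚ (AlgebraicClosure ℚ) := by
  have : IsAlgClosure ℚ (AlgebraicClosure ℚ) := kum_alg inferInstance
  have : Normal ℚ (AlgebraicClosure ℚ) := IsAlgClosure.normal ℚ _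
  exact {}

/-- `ψ (F)` is the fixed field of `stb ψ` -/
private theorem kum_fix {F : Type} [Field F] [NumberField F] (ψ : F →+* AlgebraicClosure ℚ)
    (y : AlgebraicClosure ℚ) (hy : ∀ g ∈ stb ψ, g y = y) : ∃ x : F, ψ x = y := by
  have := kum_gal
  let E : IntermediateField ℚ (AlgebraicClosure ℚ) := ψ.toRatAlgHom.fieldRange
  have h1 : y ∈ IntermediateField.fixedField E.fixingSubgroup := by
    rintro ⟨g, hg⟩
    have h2 : g ∈ stb ψ := by
      refine MulAction.mem_stabilizer_iff.2 ?_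
      ext y
      rw [smul_emb]
      exact (IntermediateField.mem_fixingSubgroup_iff E g).1 hg (ψ y) ⟨y, rfl⟩
    exact hy g h2
  rw [InfiniteGalois.fixedField_fixingSubgroup E] at h1
  obtain ⟨x, hx⟩ := h1
  exact ⟨x, hx⟩

/-- an element outside an open subgroup moves an element of its fixed field -/
private theorem kum_move {L : Subgroup GQ} (hL : IsOpen (L : Set GQ)) {τ : GQ} (hτ : τ ∉ L) :
    ∃ z : AlgebraicClosure ℚ, (∀ g ∈ L, g z = z) ∧ τ z ≠ z := by
  have := kum_gal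
  by_contra hcon
  push Not at hcon
  apply hτ
  have hcl : IsClosed (L : Set GQ) := L.isClosed_of_isOpen hL
  have h1 : (IntermediateField.fixedField L).fixingSubgroup = L :=
    InfiniteGalois.fixingSubgroup_fixedField (⟨L, hcl⟩ : ClosedSubgroup GQ)
  rw [← h1]
  refine (IntermediateField.mem_fixingSubgroup_iff _ _).2 fun z hz => ?_
  exact hcon z fun g hg => hz ⟨g, hg⟩

private theorem kum_apx {F : Type} [Field F] {ψ : F →+* AlgebraicClosure ℚ} {h : GQ}
    (hh : h ∈ stb ψ) (x : F) : h (ψ x) = ψ x :=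
  RingHom.congr_fun (MulAction.mem_stabilizer_iff.1 hh : h • ψ = ψ) x

private theorem kum_neg {z : AlgebraicClosure ℚ} (hz : z ≠ 0) : -z ≠ z := by
  intro h
  apply hz
  have h1 : (2 : AlgebraicClosure ℚ) * z = 0 := by
    linear_combination -h
  exact (mul_eq_zero.1 h1).resolve_left two_ne_zero

private theorem kum_inj {a b : ℤˣ} {s : AlgebraicClosure ℚ} (hs : s ≠ 0)
    (h : ((a : ℤ) : AlgebraicClosure ℚ) * s = ((b : ℤ) : AlgebraicClosure ℚ) * s) : a = b := by
  have h1 := mul_right_cancel₀ hs h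
  exact Units.ext (Int.cast_injective h1)

theorem Kum.ne {F : Type} [Field F] {ψ : F →+* AlgebraicClosure ℚ} {x : Fˣ}
    {s : AlgebraicClosure ℚ} {χ : GQ → ℤˣ} (h : Kum ψ x s χ) : s ≠ 0 := by
  rintro rfl
  have h1 := h.1
  rw [zero_pow two_ne_zero] at h1
  exact x.ne_zero ((map_eq_zero ψ).1 h1.symm)

theorem kum_of {F : Type} [Field F] [NumberField F] (ψ : F →+* AlgebraicClosure ℚ) (x : Fˣ) :
    ∃ (s : AlgebraicClosure ℚ) (χ : GQ → ℤˣ), Kum ψ x s χ := by
  classical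
  obtain ⟨s, hs⟩ := IsAlgClosed.exists_pow_nat_eq (ψ (x : F)) (n := 2) two_pos
  refine ⟨s, fun h => if h s = s then 1 else -1, hs, fun h hh => ?_⟩
  have h1 : h s ^ 2 = s ^ 2 := by
    rw [← map_pow, hs, kum_apx hh]
  show h s = (((if h s = s then (1 : ℤˣ) else -1 : ℤˣ) : ℤ) : AlgebraicClosure ℚ) * s
  rcases sq_eq_sq_iff_eq_or_eq_neg.1 h1 with h2 | h2
  · rw [if_pos h2, h2, Units.val_one, Int.cast_one, one_mul]
  · by_cases h3 : h s = s
    · rw [if_pos h3, Units.val_one, Int.cast_one, one_mul, h3]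
    · rw [if_neg h3, h2, Units.val_neg, Units.val_one, Int.cast_neg, Int.cast_one, neg_one_mul]

theorem kum_chr {F : Type} [Field F] [NumberField F] {ψ : F →+* AlgebraicClosure ℚ} {x : Fˣ}
    {s : AlgebraicClosure ℚ} {χ : GQ → ℤˣ} (h : Kum ψ x s χ) : IsChr (stb ψ) χ := by
  have hs := h.ne
  have hm : Mulp (stb ψ) χ := by
    intro a ha b hb
    refine kum_inj hs ?_
    rw [← h.2 (a * b) ((stb ψ).mul_mem ha hb)]
    show a (b s) = _
    rw [h.2 b hb, map_mul, map_intCast, h.2 a ha, Units.val_mul, Int.cast_mul]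
    ring
  refine ⟨hm, ?_⟩
  have hint : IsIntegral ℚ s := by
    have : Algebra.IsAlgebraic ℚ (AlgebraicClosure ℚ) := AlgebraicClosure.isAlgebraic ℚ
    exact (Algebra.IsAlgebraic.isAlgebraic s).isIntegral
  have hfin : FiniteDimensional ℚ (IntermediateField.adjoin ℚ {s}) :=
    IntermediateField.adjoin.finiteDimensional hint
  have h1 : IsOpen ((IntermediateField.adjoin ℚ {s}).fixingSubgroup : Set GQ) :=
    IntermediateField.fixingSubgroup_isOpen _
  have h2 : IsOpen (stb ψ : Set GQ) := stab_open F ψ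
  have h3 : IsOpen ((stb ψ ⊓ (IntermediateField.adjoin ℚ {s}).fixingSubgroup : Subgroup GQ) :
      Set GQ) := h2.inter h1
  refine Subgroup.isOpen_mono ?_ h3
  rintro g ⟨hg, hg'⟩
  refine (mem_kr hm).2 ⟨hg, kum_inj hs ?_⟩
  have h5 : g s = s := (IntermediateField.mem_fixingSubgroup_iff _ _).1 hg' s
    (IntermediateField.mem_adjoin_simple_self ℚ s)
  rw [← h.2 g hg, h5, Units.val_one, Int.cast_one, one_mul]

theorem of_chr {F : Type} [Field F] [NumberField F] (ψ : F →+* AlgebraicClosure ℚ) {χ : GQ → ℤˣ}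
    (h : IsChr (stb ψ) χ) : ∃ (x : Fˣ) (s : AlgebraicClosure ℚ), Kum ψ x s χ := by
  by_cases htr : ∀ g ∈ stb ψ, χ g = 1
  · refine ⟨1, 1, ?_, fun g hg => ?_⟩
    · rw [one_pow, Units.val_one, map_one]
    · rw [htr g hg, map_one, Units.val_one, Int.cast_one, one_mul]
  push Not at htr
  obtain ⟨τ, hτ, hτ1⟩ := htr
  have hτ2 : χ τ = -1 := (Int.units_eq_one_or (χ τ)).resolve_left hτ1
  have hm := h.1
  have hL : ∀ g, g ∈ kr (stb ψ) χ ↔ g ∈ stb ψ ∧ χ g = 1 := fun g => mem_kr hm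
  have hτL : τ ∉ kr (stb ψ) χ := fun h1 => hτ1 ((hL τ).1 h1).2
  obtain ⟨z, hz, hτz⟩ := kum_move h.2 hτL
  have hτi : χ τ⁻¹ = -1 := by
    have h1 := hm τ hτ τ⁻¹ ((stb ψ).inv_mem hτ)
    rw [mul_inv_cancel, hm.one, hτ2] at h1
    rcases Int.units_eq_one_or (χ τ⁻¹) with h2 | h2
    · rw [h2, mul_one] at h1
      exact absurd h1 (by decide)
    · exact h2
  have hs0 : z - τ z ≠ 0 := fun h1 => hτz (sub_eq_zero.1 h1).symm
  have hact : ∀ g ∈ stb ψ, g (z - τ z) = ((χ g : ℤ) : AlgebraicClosure ℚ) * (z - τ z) := by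
    intro g hg
    rcases Int.units_eq_one_or (χ g) with h1 | h1
    · have h2 : τ⁻¹ * g * τ ∈ kr (stb ψ) χ := by
        refine (hL _).2 ⟨(stb ψ).mul_mem ((stb ψ).mul_mem ((stb ψ).inv_mem hτ) hg) hτ, ?_⟩
        rw [hm _ ((stb ψ).mul_mem ((stb ψ).inv_mem hτ) hg) _ hτ,
          hm _ ((stb ψ).inv_mem hτ) _ hg, hτi, h1, hτ2]
        decide
      have h3 : g z = z := hz g ((hL g).2 ⟨hg, h1⟩)
      have h4 : g (τ z) = τ z := by
        have h5 : (τ⁻¹ * g * τ) z = z := hz _ h2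
        have h6 : (τ * (τ⁻¹ * g * τ)) z = τ z := congrArg τ h5
        have h7 : τ * (τ⁻¹ * g * τ) = g * τ := by group
        rw [h7] at h6
        exact h6
      rw [map_sub, h3, h4, h1, Units.val_one, Int.cast_one, one_mul]
    · have h2 : τ⁻¹ * g ∈ kr (stb ψ) χ := by
        refine (hL _).2 ⟨(stb ψ).mul_mem ((stb ψ).inv_mem hτ) hg, ?_⟩
        rw [hm _ ((stb ψ).inv_mem hτ) _ hg, hτi, h1]
        decide
      have h3 : g * τ ∈ kr (stb ψ) χ := by
        refine (hL _).2 ⟨(stb ψ).mul_mem hg hτ, ?_⟩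
        rw [hm _ hg _ hτ, hτ2, h1]
        decide
      have h4 : g z = τ z := by
        have h5 : (τ⁻¹ * g) z = z := hz _ h2
        have h6 : (τ * (τ⁻¹ * g)) z = τ z := congrArg τ h5
        rw [mul_inv_cancel_left] at h6
        exact h6
      have h5 : g (τ z) = z := hz _ h3
      rw [map_sub, h4, h5, h1, Units.val_neg, Units.val_one, Int.cast_neg, Int.cast_one]
      ring
  obtain ⟨x, hx⟩ := kum_fix ψ ((z - τ z) ^ 2) fun g hg => by
    rw [map_pow, hact g hg, mul_pow]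
    have h1 : (((χ g : ℤˣ) : ℤ) : AlgebraicClosure ℚ) ^ 2 = 1 := by
      rcases Int.units_eq_one_or (χ g) with h1 | h1
      · rw [h1, Units.val_one, Int.cast_one, one_pow]
      · rw [h1, Units.val_neg, Units.val_one, Int.cast_neg, Int.cast_one, neg_one_sq]
    rw [h1, one_mul]
  have hx0 : x ≠ 0 := by
    rintro rfl
    rw [map_zero] at hx
    exact hs0 (pow_eq_zero_iff two_ne_zero |>.1 hx.symm)
  exact ⟨Units.mk0 x hx0, z - τ z, by rw [Units.val_mk0, hx], hact⟩

theorem Kum.mul {F : Type} [Field F] {ψ : F →+* AlgebraicClosure ℚ} {x y : Fˣ}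
    {s t : AlgebraicClosure ℚ} {χ η : GQ → ℤˣ} (h : Kum ψ x s χ) (h' : Kum ψ y t η) :
    Kum ψ (x * y) (s * t) (χ * η) := by
  refine ⟨?_, fun g hg => ?_⟩
  · rw [mul_pow, h.1, h'.1, Units.val_mul, map_mul]
  · rw [map_mul, h.2 g hg, h'.2 g hg, Pi.mul_apply, Units.val_mul, Int.cast_mul]
    ring


end Pool.Agent.GJ
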