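import Pool.Agent.GJ.N.Kum
import Pool.Agent.MX.P.Conj
import Pool.Agent.MD.L.Fix

/-!
# GJ/N-Pla: places and local squares

The place of `F` induced by `P.g⁻¹ • ψ` and `emb P.p`; a Kummer character is trivial at it iff `x` is a local
square; two places are equal iff the corresponding `Pl` are equivalent.
-/

namespace Pool.Agent.GJ

open MulAction Pool.Agent.H73.DU Pool.Agent.H73.AL Pool.Agent.LD Pool.Agent.TS

open NumberField IsDedekindDomain Pool.Agent.HWR Pool.Agent.QD Pool.Agent.MD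

private theorem Pla_smul {F : Type} [Field F] (g : GQ) (φ : F →+* AlgebraicClosure ℚ) (y : F) :
    (g • φ) y = g (φ y) := rfl

private theorem Pla_mem {P : Pl} {h : GQ} :
    h ∈ P.D ↔ ∃ d ∈ decomp ℚ_[P.p] (emb P.p), h = P.g * d * P.g⁻¹ := by
  unfold Pl.D
  rw [mem_cj_iff]
  constructor
  · rintro ⟨u, hu, rfl⟩
    exact ⟨u, hu, by rw [inv_inv]⟩
  · rintro ⟨u, hu, rfl⟩
    exact ⟨u, hu, by rw [inv_inv]⟩

private theorem Pla_stb {F : Type} [Field F] {ψ : F →+* AlgebraicClosure ℚ} {g d : GQ} :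
    d ∈ stb (g⁻¹ • ψ) ↔ g * d * g⁻¹ ∈ stb ψ := by
  unfold stb
  rw [MulAction.mem_stabilizer_iff, MulAction.mem_stabilizer_iff, mul_smul, mul_smul]
  constructor
  · intro h
    rw [h, smul_inv_smul]
  · intro h
    rw [eq_inv_smul_iff]
    exact h

private theorem Pla_sq {F : Type} [Field F] {ψ : F →+* AlgebraicClosure ℚ} {x : Fˣ}
    {s : AlgebraicClosure ℚ} (g : GQ) (hs : s ^ 2 = ψ (x : F)) :
    (g⁻¹ s) ^ 2 = (g⁻¹ • ψ) (x : F) := by
  rw [Pla_smul, ← hs, map_pow]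

private theorem Pla_app (g d : GQ) (s : AlgebraicClosure ℚ) :
    (g * d * g⁻¹) s = g (d (g⁻¹ s)) := rfl

private theorem Pla_inv (g : GQ) (s : AlgebraicClosure ℚ) : g (g⁻¹ s) = s := by
  change (g * g⁻¹) s = s
  rw [mul_inv_cancel]
  rfl

private theorem Pla_unit {u : ℤˣ} {s : AlgebraicClosure ℚ} (hs : s ≠ 0)
    (h : s = ((u : ℤ) : AlgebraicClosure ℚ) * s) : u = 1 := by
  rcases Int.units_eq_one_or u with h1 | h1
  · exact h1
  · exfalso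
    rw [h1] at h
    have h2 : (2 : AlgebraicClosure ℚ) * s = 0 := by
      have h3 : s = - s := by
        refine h.trans ?_
        push_cast
        ring
      linear_combination h3
    rcases mul_eq_zero.1 h2 with h3 | h3
    · exact two_ne_zero h3
    · exact hs h3

private theorem Pla_isPl {p : ℕ} [Fact p.Prime] {F : Type} [Field F] [NumberField F]
    {φ : F →+* AlgebraicClosure ℚ} {w : HeightOneSpectrum (𝓞 F)} (hw : IsPl p φ w) {d : GQ}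
    (hd : d ∈ decomp ℚ_[p] (emb p)) : IsPl p (d • φ) w := by
  obtain ⟨σ, hσ⟩ := hd
  intro x
  rw [hw x, Pla_smul, hσ]
  have h : ‖σ (emb p (φ (x : F)))‖ = ‖emb p (φ (x : F))‖ :=
    (spectralNorm_eq_of_equiv σ (emb p (φ (x : F)))).symm
  rw [h]

private theorem Pla_uniq {p : ℕ} [Fact p.Prime] {F : Type} [Field F] [NumberField F]
    {φ : F →+* AlgebraicClosure ℚ} {v w : HeightOneSpectrum (𝓞 F)} (hv : IsPl p φ v)
    (hw : IsPl p φ w) : v = w := by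
  apply HeightOneSpectrum.ext
  ext x
  rw [hv x, hw x]

private theorem Pla_prime {F : Type} [Field F] [NumberField F] {w : HeightOneSpectrum (𝓞 F)}
    {p q : ℕ} (hp : p.Prime) (hq : q.Prime) (h1 : (p : 𝓞 F) ∈ w.asIdeal)
    (h2 : (q : 𝓞 F) ∈ w.asIdeal) : p = q := by
  by_contra hne
  have hc : IsCoprime (p : ℤ) (q : ℤ) := Nat.isCoprime_iff_coprime.2 ((Nat.coprime_primes hp hq).2 hne)
  obtain ⟨a, b, hab⟩ := hc
  apply w.isPrime.ne_top
  rw [Ideal.eq_top_iff_one]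
  have h3 : ((a : 𝓞 F) * (p : 𝓞 F) + (b : 𝓞 F) * (q : 𝓞 F)) = 1 := by
    have := congrArg (fun z : ℤ => (z : 𝓞 F)) hab
    push_cast at this
    exact this
  rw [← h3]
  exact w.asIdeal.add_mem (w.asIdeal.mul_mem_left _ h1) (w.asIdeal.mul_mem_left _ h2)

theorem exists_pl {F : Type} [Field F] [NumberField F] (ψ : F →+* AlgebraicClosure ℚ) (P : Pl) :
    ∃ w : HeightOneSpectrum (𝓞 F), IsPl P.p (P.g⁻¹ • ψ) w ∧ ((P.p : ℕ) : 𝓞 F) ∈ w.asIdeal := by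
  obtain ⟨w, hw⟩ := exists_isPl P.p (P.g⁻¹ • ψ)
  exact ⟨w, hw, isPl_mem hw⟩

/-- every place over `p` comes from some `Pl` -/
theorem exists_Pl {F : Type} [Field F] [NumberField F] (ψ : F →+* AlgebraicClosure ℚ) (p : ℕ)
    [Fact p.Prime] (w : HeightOneSpectrum (𝓞 F)) (hw : ((p : ℕ) : 𝓞 F) ∈ w.asIdeal) :
    ∃ P : Pl, P.p = p ∧ IsPl P.p (P.g⁻¹ • ψ) w := by
  obtain ⟨φ, hφ⟩ := exists_emb p F w hw
  obtain ⟨g, hg⟩ := trans_emb F ψ φ
  refine ⟨⟨p, g⁻¹⟩, rfl, ?_⟩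
  change IsPl p ((g⁻¹)⁻¹ • ψ) w
  rw [inv_inv, hg]
  exact hφ

theorem fix_pl {F : Type} [Field F] [NumberField F] {ψ : F →+* AlgebraicClosure ℚ} {x : Fˣ}
    {s : AlgebraicClosure ℚ} {χ : GQ → ℤˣ} (h : Kum ψ x s χ) (P : Pl)
    {w : HeightOneSpectrum (𝓞 F)} (hw : IsPl P.p (P.g⁻¹ • ψ) w) (hx : LSq w x) :
    EqAt (stb ψ) P χ 1 := by
  intro y hy hy1
  obtain ⟨d, hd, rfl⟩ := Pla_mem.1 hy
  have h1 := fix_of_lsq P.p (P.g⁻¹ • ψ) hw x (P.g⁻¹ s) (Pla_sq P.g h.1) hx d hd (Pla_stb.2 hy1)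
  have h2 := h.2 _ hy1
  rw [Pla_app, h1, Pla_inv] at h2
  rw [Pi.one_apply]
  exact Pla_unit h.ne h2

theorem eqAt_iff {V T : Finset ℕ} (h2 : 2 ∈ T) {F : Type} [Field F] [NumberField F]
    {ψ : F →+* AlgebraicClosure ℚ} {x : Fˣ}
    {s : AlgebraicClosure ℚ} {χ : GQ → ℤˣ} (h : Kum ψ x s χ) {P : Pl} (hP : Pin V T P)
    {w : HeightOneSpectrum (𝓞 F)} (hw : IsPl P.p (P.g⁻¹ • ψ) w) :
    EqAt (stb ψ) P χ 1 ↔ LSq w x := by
  constructor
  · intro he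
    refine lsq_of_fix P.p (P.g⁻¹ • ψ) hw x (P.g⁻¹ s) (Pla_sq P.g h.1) ?_
    intro d hd hd1
    have h3 := Pla_stb.1 hd1
    have h4 := he _ (Pla_mem.2 ⟨d, hd, rfl⟩) h3
    have h5 := h.2 _ h3
    rw [h4, Pi.one_apply, Units.val_one, Int.cast_one, one_mul, Pla_app] at h5
    apply P.g.injective
    rw [h5, Pla_inv]
  · intro hx
    exact fix_pl h P hw hx

theorem peq_iff {F : Type} [Field F] [NumberField F] (ψ : F →+* AlgebraicClosure ℚ) {P Q : Pl}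
    {v w : HeightOneSpectrum (𝓞 F)} (hv : IsPl P.p (P.g⁻¹ • ψ) v) (hw : IsPl Q.p (Q.g⁻¹ • ψ) w) :
    PEq (stb ψ) P Q ↔ v = w := by
  obtain ⟨p, g⟩ := P
  obtain ⟨q, g'⟩ := Q
  change IsPl p (g⁻¹ • ψ) v at hv
  change IsPl q (g'⁻¹ • ψ) w at hw
  constructor
  · rintro ⟨e, h, hh, d, hd, hg⟩
    change p = q at e
    change g' = h * g * d at hg
    change d ∈ decomp ℚ_[p] (emb p) at hd
    subst e
    have h1 : g'⁻¹ • ψ = d⁻¹ • (g⁻¹ • ψ) := by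
      have h2 : h • ψ = ψ := MulAction.mem_stabilizer_iff.1 hh
      have h3 : h⁻¹ • ψ = ψ := by rw [inv_smul_eq_iff, h2]
      rw [hg, mul_inv_rev, mul_inv_rev, mul_smul, mul_smul, h3]
    rw [h1] at hw
    exact Pla_uniq (Pla_isPl hv (Subgroup.inv_mem _ hd)) hw
  · intro e
    subst e
    have hp : p.Prime := Fact.out
    have hq : q.Prime := Fact.out
    have hpq : p = q := Pla_prime hp hq (isPl_mem hv) (isPl_mem hw)
    subst hpq
    obtain ⟨d, hd, hdd⟩ := Pool.Agent.MX.conj_pl p (g⁻¹ • ψ) (g'⁻¹ • ψ) hv hw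
    refine ⟨rfl, g' * d * g⁻¹, ?_, d⁻¹, Subgroup.inv_mem _ hd, ?_⟩
    · refine MulAction.mem_stabilizer_iff.2 ?_
      rw [mul_smul, mul_smul, hdd, smul_inv_smul]
    · change g' = g' * d * g⁻¹ * g * d⁻¹
      group

end Pool.Agent.GJ
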